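import Pool.Agent.Y355.NJ.Core

set_option autoImplicit false

/-!
Over every field there are continuum many nonmatrix locally admissible varieties of noncommutative
Jordan algebras: the varieties of `SB F B`, one for every set `B` of natural numbers, are ordered by
inclusion like the complements of the sets `B`, and they are not finitely based if `B` is infinite.
-/

namespace Pool.Agent.Results.MP_b8847a_al.ContinuumVarieties

open Pool.Agent.H772R3.Specht hiding S
open Pool.Agent.Y355.NJ

universe u

/-- every algebra of the variety defined by `S` is anticommutative and locally nilpotent, and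
satisfies `((x0 x1) (x2 x3)) (x4 x5) = 0` -/
def AntiNil (F : Type u) [Field F] (S : Set (NAPoly F)) : Prop :=
  ∀ (A : Type u) [NonUnitalNonAssocRing A] [Module F A] [IsScalarTower F A A]
    [SMulCommClass F A A], Satisfies S A →
    IsAnticommutative A ∧ IsLocallyNilpotent F A ∧
      ∀ x0 x1 x2 x3 x4 x5 : A, ((x0 * x1) * (x2 * x3)) * (x4 * x5) = 0

/-- the variety defined by `S` is contained in the one defined by `T` -/
def SubVar (F : Type u) [Field F] (S T : Set (NAPoly F)) : Prop :=
  ∀ (A : Type u) [NonUnitalNonAssocRing A] [Module F A] [IsScalarTower F A A]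
    [SMulCommClass F A A], Satisfies S A → Satisfies T A

/-- **Continuum many nonmatrix locally admissible varieties, over every field.** -/
theorem result (F : Type u) [Field F] :
    ∃ S : Set ℕ → Set (NAPoly F),
      (∀ B, NoncommutativeJordanVariety F (S B) ∧ LocallyAdmissible F (S B) ∧
        Nonmatrix F (S B) ∧ AntiNil F (S B)) ∧
      (∀ B C, SubVar F (S B) (S C) ↔ C ⊆ B) ∧
      ∀ B : Set ℕ, B.Infinite → ¬ FinitelyBased F (S B) := by
  refine ⟨SB F, fun B => ⟨ncj B, ?_, ?_, ?_⟩, fun B C => ⟨?_, ?_⟩, fun B hB =>
    not_finitelyBased' hB⟩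
  · intro A _ _ _ _ hA _
    exact locallyNilpotent_of_satisfies (com_of_SB hA)
  · intro A _ _ _ _ hA hs
    exact absurd hs (not_simple_of_satisfies (com_of_SB hA))
  · intro A _ _ _ _ hA
    exact ⟨anti_of_satisfies (com_of_SB hA), locallyNilpotent_of_satisfies (com_of_SB hA),
      solvable_of_satisfies (com_of_SB hA)⟩
  · intro h n hn
    by_contra hB
    exact Alg_satisfies.1 (h (Alg F n) (Alg_satisfies.2 hB)) hn
  · intro h A _ _ _ _ hA f hf
    rcases hf with hf | ⟨n, hn, rfl⟩
    · exact hA f (Or.inl hf)
    · exact hA _ (Or.inr ⟨n, h hn, rfl⟩)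

end Pool.Agent.Results.MP_b8847a_al.ContinuumVarieties
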